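import Pool.Agent.Run7.h473.MD.Iface

set_option autoImplicit false

/-!
Project MD (helper473), piece REF: the set of the points to which the multiple Dirichlet series continues is stable
under the functional equations.
-/

namespace Pool.Agent.Run7.h763.MD

open Complex Filter Topology MeasureTheory Set
open Pool.Agent.Q48.MDS Pool.Agent.N879.QM Pool.Agent.Run7.h473.MD

noncomputable section

/-! ### Algebra of tempered functions -/

section

variable {ι : Type*} [Fintype ι]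

theorem one_le_im (z : ι → ℂ) : 1 ≤ 1 + ‖fun i => (z i).im‖ := by
  linarith [norm_nonneg (fun i => (z i).im)]

theorem temp_const (Ω : Set (ι → ℝ)) (c : ℂ) : Tempered Ω (fun _ : ι → ℂ => c) := by
  refine ⟨differentiableOn_const c, fun K _ _ => ⟨‖c‖, 0, fun z _ => ?_⟩⟩
  simp

theorem temp_coord (Ω : Set (ι → ℝ)) (i : ι) : Tempered Ω (fun z : ι → ℂ => z i) := by
  refine ⟨(differentiable_apply i).differentiableOn, fun K _ hc => ?_⟩
  obtain ⟨R, hR⟩ := hc.isBounded.exists_norm_le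
  refine ⟨|R| + 1, 1, fun z hz => ?_⟩
  have h1 : ‖z i‖ ≤ |(z i).re| + |(z i).im| := Complex.norm_le_abs_re_add_abs_im _
  have h2 : |(z i).re| ≤ R := by
    have := (norm_le_pi_norm (fun i => (z i).re) i).trans (hR _ hz)
    simpa using this
  have h3 : |(z i).im| ≤ ‖fun i => (z i).im‖ := by
    have := norm_le_pi_norm (fun i => (z i).im) i
    simpa using this
  have h4 : R ≤ |R| := le_abs_self R
  have h5 : 0 ≤ |R| := abs_nonneg R
  have h6 : 0 ≤ ‖fun i => (z i).im‖ := norm_nonneg _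
  rw [pow_one]
  nlinarith [mul_nonneg h5 h6]

theorem temp_add {Ω : Set (ι → ℝ)} {f g : (ι → ℂ) → ℂ} (hf : Tempered Ω f) (hg : Tempered Ω g) :
    Tempered Ω (fun z => f z + g z) := by
  refine ⟨hf.1.add hg.1, fun K hK hc => ?_⟩
  obtain ⟨C, N, h1⟩ := hf.2 K hK hc
  obtain ⟨C', N', h2⟩ := hg.2 K hK hc
  refine ⟨|C| + |C'|, max N N', fun z hz => ?_⟩
  have e0 := one_le_im z
  have m1 : (1 + ‖fun i => (z i).im‖) ^ N ≤ (1 + ‖fun i => (z i).im‖) ^ max N N' :=
    pow_le_pow_right₀ e0 (le_max_left _ _)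
  have m2 : (1 + ‖fun i => (z i).im‖) ^ N' ≤ (1 + ‖fun i => (z i).im‖) ^ max N N' :=
    pow_le_pow_right₀ e0 (le_max_right _ _)
  have n1 : C * (1 + ‖fun i => (z i).im‖) ^ N ≤ |C| * (1 + ‖fun i => (z i).im‖) ^ max N N' := by
    have : C ≤ |C| := le_abs_self C
    calc _ ≤ |C| * (1 + ‖fun i => (z i).im‖) ^ N := by gcongr
      _ ≤ _ := by gcongr
  have n2 : C' * (1 + ‖fun i => (z i).im‖) ^ N' ≤ |C'| * (1 + ‖fun i => (z i).im‖) ^ max N N' := by
    have : C' ≤ |C'| := le_abs_self C'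
    calc _ ≤ |C'| * (1 + ‖fun i => (z i).im‖) ^ N' := by gcongr
      _ ≤ _ := by gcongr
  calc ‖f z + g z‖ ≤ ‖f z‖ + ‖g z‖ := norm_add_le _ _
    _ ≤ |C| * (1 + ‖fun i => (z i).im‖) ^ max N N' + |C'| * (1 + ‖fun i => (z i).im‖) ^ max N N' :=
        add_le_add ((h1 z hz).trans n1) ((h2 z hz).trans n2)
    _ = _ := by ring

theorem temp_mul {Ω : Set (ι → ℝ)} {f g : (ι → ℂ) → ℂ} (hf : Tempered Ω f) (hg : Tempered Ω g) :
    Tempered Ω (fun z => f z * g z) := by
  refine ⟨hf.1.mul hg.1, fun K hK hc => ?_⟩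
  obtain ⟨C, N, h1⟩ := hf.2 K hK hc
  obtain ⟨C', N', h2⟩ := hg.2 K hK hc
  refine ⟨C * C', N + N', fun z hz => ?_⟩
  rw [norm_mul, pow_add]
  calc ‖f z‖ * ‖g z‖ ≤ (C * (1 + ‖fun i => (z i).im‖) ^ N) * (C' * (1 + ‖fun i => (z i).im‖) ^ N') :=
        mul_le_mul (h1 z hz) (h2 z hz) (norm_nonneg _) ((norm_nonneg _).trans (h1 z hz))
    _ = _ := by ring

theorem temp_sum {Ω : Set (ι → ℝ)} {κ : Type*} (s : Finset κ) (f : κ → (ι → ℂ) → ℂ)
    (hf : ∀ a ∈ s, Tempered Ω (f a)) : Tempered Ω (fun z => ∑ a ∈ s, f a z) := by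
  classical
  induction s using Finset.induction with
  | empty => simpa using temp_const Ω 0
  | insert a s ha ih =>
    simp_rw [Finset.sum_insert ha]
    exact temp_add (hf a (Finset.mem_insert_self _ _)) (ih fun b hb => hf b (Finset.mem_insert_of_mem hb))

theorem temp_prod {Ω : Set (ι → ℝ)} {κ : Type*} (s : Finset κ) (f : κ → (ι → ℂ) → ℂ)
    (hf : ∀ a ∈ s, Tempered Ω (f a)) : Tempered Ω (fun z => ∏ a ∈ s, f a z) := by
  classical
  induction s using Finset.induction with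
  | empty => simpa using temp_const Ω 1
  | insert a s ha ih =>
    simp_rw [Finset.prod_insert ha]
    exact temp_mul (hf a (Finset.mem_insert_self _ _)) (ih fun b hb => hf b (Finset.mem_insert_of_mem hb))

end

theorem temp_PP (k : ℕ) (Ω : Set (Fin (k + 1) → ℝ)) : Tempered Ω (PP k) := by
  unfold PP
  refine temp_prod _ _ fun J _ => ?_
  unfold sigma
  have h1 : Tempered Ω (fun z : Fin (k + 1) → ℂ => z 0 + -((J.card : ℂ) / 2)) :=
    temp_add (temp_coord Ω 0) (temp_const Ω _)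
  have h2 : Tempered Ω (fun z : Fin (k + 1) → ℂ => ∑ j ∈ J, z j.succ) :=
    temp_sum J (fun j z => z j.succ) fun j _ => temp_coord Ω j.succ
  have h3 := temp_add (temp_add h1 h2) (temp_const Ω (-1))
  simpa [sub_eq_add_neg] using h3

/-! ### The reflection -/

theorem rf_invol {k : ℕ} (j : Fin k) (p : Fin (k + 1) → ℝ) : rf j (rf j p) = p := by
  funext i
  unfold rf
  by_cases h0 : i = 0
  · subst h0
    simp [Fin.succ_ne_zero]
    ring
  · by_cases h1 : i = j.succ
    · subst h1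
      simp [Fin.succ_ne_zero]
    · simp [h0, h1]

theorem rf_zero {k : ℕ} (j : Fin k) (p : Fin (k + 1) → ℝ) : rf j p 0 = p 0 + p j.succ - 1 / 2 := by
  simp [rf]

theorem rf_self {k : ℕ} (j : Fin k) (p : Fin (k + 1) → ℝ) : rf j p j.succ = 1 - p j.succ := by
  simp [rf, Fin.succ_ne_zero]

theorem rf_other {k : ℕ} (j i : Fin k) (h : i ≠ j) (p : Fin (k + 1) → ℝ) : rf j p i.succ = p i.succ := by
  have : i.succ ≠ j.succ := fun e => h (Fin.succ_injective _ e)
  simp [rf, Fin.succ_ne_zero, this]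

theorem rfc_zero {k : ℕ} (j : Fin k) (z : Fin (k + 1) → ℂ) : rfc j z 0 = z 0 + z j.succ - 1 / 2 := by
  simp [rfc]

theorem rfc_self {k : ℕ} (j : Fin k) (z : Fin (k + 1) → ℂ) : rfc j z j.succ = 1 - z j.succ := by
  simp [rfc, Fin.succ_ne_zero]

theorem rfc_other {k : ℕ} (j i : Fin k) (h : i ≠ j) (z : Fin (k + 1) → ℂ) : rfc j z i.succ = z i.succ := by
  have : i.succ ≠ j.succ := fun e => h (Fin.succ_injective _ e)
  simp [rfc, Fin.succ_ne_zero, this]

theorem rfc_re {k : ℕ} (j : Fin k) (z : Fin (k + 1) → ℂ) :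
    (fun i => (rfc j z i).re) = rf j (fun i => (z i).re) := by
  funext i
  unfold rf rfc
  by_cases h0 : i = 0
  · subst h0
    simp
  · by_cases h1 : i = j.succ
    · subst h1
      simp [Fin.succ_ne_zero]
    · simp [h0, h1]

theorem rfc_im {k : ℕ} (j : Fin k) (z : Fin (k + 1) → ℂ) :
    ‖fun i => (rfc j z i).im‖ ≤ 2 * ‖fun i => (z i).im‖ := by
  rw [pi_norm_le_iff_of_nonneg (by positivity)]
  intro i
  have h : ∀ l : Fin (k + 1), |(z l).im| ≤ ‖fun i => (z i).im‖ := by
    intro l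
    have := norm_le_pi_norm (fun i => (z i).im) l
    simpa using this
  have h' : 0 ≤ ‖fun i => (z i).im‖ := norm_nonneg _
  rw [Real.norm_eq_abs]
  unfold rfc
  by_cases h0 : i = 0
  · subst h0
    have e : (if (0 : Fin (k + 1)) = 0 then z 0 + z j.succ - 1 / 2 else
        if (0 : Fin (k + 1)) = j.succ then 1 - z j.succ else z 0).im = (z 0).im + (z j.succ).im := by
      simp
    rw [e]
    exact (abs_add_le _ _).trans (by linarith [h 0, h j.succ])
  · by_cases h1 : i = j.succ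
    · subst h1
      have e : (if (j.succ : Fin (k + 1)) = 0 then z 0 + z j.succ - 1 / 2 else
          if (j.succ : Fin (k + 1)) = j.succ then 1 - z j.succ else z j.succ).im = -(z j.succ).im := by
        simp [Fin.succ_ne_zero]
      rw [e, abs_neg]
      linarith [h j.succ]
    · rw [if_neg h0, if_neg h1]
      linarith [h i]

theorem rf_cont {k : ℕ} (j : Fin k) : Continuous (rf j) := by
  refine continuous_pi fun i => ?_
  unfold rf
  by_cases h0 : i = 0
  · simp only [h0, if_true]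
    fun_prop
  · by_cases h1 : i = j.succ
    · simp only [h1, if_true, Fin.succ_ne_zero, if_false]
      fun_prop
    · simp only [h0, if_false, h1]
      fun_prop

theorem rfc_diff {k : ℕ} (j : Fin k) : Differentiable ℂ (rfc j) := by
  rw [differentiable_pi]
  intro i
  unfold rfc
  by_cases h0 : i = 0
  · simp only [h0, if_true]
    fun_prop
  · by_cases h1 : i = j.succ
    · simp only [h1, if_true, Fin.succ_ne_zero, if_false]
      fun_prop
    · simp only [h0, if_false, h1]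
      fun_prop

theorem rf_comb {k : ℕ} (j : Fin k) (x y : Fin (k + 1) → ℝ) (a b : ℝ) (hab : a + b = 1) :
    rf j (a • x + b • y) = a • rf j x + b • rf j y := by
  have hb : b = 1 - a := by linarith
  subst hb
  funext i
  simp only [rf, Pi.add_apply, Pi.smul_apply, smul_eq_mul]
  by_cases h0 : i = 0
  · simp only [h0, if_true]
    ring
  · by_cases h1 : i = j.succ
    · simp only [if_false, h1, if_true, Fin.succ_ne_zero]
      ring
    · simp only [h0, if_false, h1]

theorem PP_rfc {k : ℕ} (j : Fin k) (z : Fin (k + 1) → ℂ) : PP k (rfc j z) = PP k z := by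
  classical
  have key : ∀ J : Finset (Fin k), sigma J (rfc j z) = sigma (if j ∈ J then J.erase j else insert j J) z := by
    intro J
    unfold sigma
    by_cases hj : j ∈ J
    · rw [if_pos hj, rfc_zero]
      have e1 : ∑ i ∈ J, rfc j z i.succ = (1 - z j.succ) + ∑ i ∈ J.erase j, z i.succ := by
        rw [← Finset.add_sum_erase J _ hj, rfc_self]
        congr 1
        exact Finset.sum_congr rfl fun i hi => rfc_other j i (Finset.ne_of_mem_erase hi) z
      have e2 : ((J.erase j).card : ℂ) = (J.card : ℂ) - 1 := by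
        rw [Finset.card_erase_of_mem hj, Nat.cast_sub (Finset.card_pos.2 ⟨j, hj⟩)]
        simp
      rw [e1, e2]
      ring
    · rw [if_neg hj, rfc_zero, Finset.sum_insert hj, Finset.card_insert_of_notMem hj]
      have e1 : ∑ i ∈ J, rfc j z i.succ = ∑ i ∈ J, z i.succ :=
        Finset.sum_congr rfl fun i hi => rfc_other j i (fun e => hj (e ▸ hi)) z
      rw [e1]
      push_cast
      ring
  have hinv : Function.Involutive (fun J : Finset (Fin k) => if j ∈ J then J.erase j else insert j J) := by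
    intro J
    by_cases hj : j ∈ J
    · simp only [hj, if_true, Finset.notMem_erase, if_false, Finset.insert_erase]
    · simp only [hj, if_false, Finset.mem_insert_self, if_true, Finset.erase_insert, not_false_eq_true]
  unfold PP
  simp_rw [key]
  exact Equiv.prod_comp (hinv.toPerm) (fun J => sigma J z - 1)

theorem Hs_rfc (hFEQ : S_FEQ) {k : ℕ} (M : ℕ) (j : Fin k) (z : Fin (k + 1) → ℂ) (h0 : 0 < (z j.succ).re)
    (h1 : (z j.succ).re < 1) : gam (z j.succ) * Hs k M (rfc j z) = Hs k M z := by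
  classical
  unfold Hs
  rw [← tsum_mul_left]
  refine tsum_congr fun d => ?_
  unfold cd
  by_cases hd : Is 1 d
  · rw [if_pos hd, if_pos hd]
    have hd0 : (d : ℂ) ≠ 0 := by
      have : 2 ≤ d := hd.1
      exact_mod_cast (by omega : d ≠ 0)
    have e1 : ∏ i : Fin k, LL 1 d (rfc j z i.succ) =
        LL 1 d (1 - z j.succ) * ∏ i ∈ Finset.univ.erase j, LL 1 d (z i.succ) := by
      rw [← Finset.mul_prod_erase Finset.univ _ (Finset.mem_univ j), rfc_self]
      congr 1
      exact Finset.prod_congr rfl fun i hi => by rw [rfc_other j i (Finset.ne_of_mem_erase hi) z]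
    have e2 : ∏ i : Fin k, LL 1 d (z i.succ) =
        LL 1 d (z j.succ) * ∏ i ∈ Finset.univ.erase j, LL 1 d (z i.succ) := by
      rw [← Finset.mul_prod_erase Finset.univ _ (Finset.mem_univ j)]
    have e3 := hFEQ d hd (z j.succ) h0 h1
    have e4 : (d : ℂ) ^ (-(rfc j z 0)) = (d : ℂ) ^ (-(z 0)) * (d : ℂ) ^ (1 / 2 - z j.succ) := by
      rw [← Complex.cpow_add _ _ hd0, rfc_zero]
      congr 1
      ring
    rw [e1, e2, e3, e4]
    ring
  · rw [if_neg hd, if_neg hd, mul_zero]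

theorem convex_V (k : ℕ) : Convex ℝ {p : Fin (k + 1) → ℝ | (k : ℝ) + 1 < p 0 ∧ ∀ j : Fin k, 0 < p j.succ} := by
  intro x hx y hy a b ha hb hab
  have hlt : ∀ (c u v : ℝ), c < u → c < v → c < a * u + b * v := by
    intro c u v hu hv
    rcases ha.eq_or_lt with h | h
    · have hb1 : b = 1 := by linarith
      rw [← h, hb1]
      linarith
    · have : a * c < a * u := by nlinarith
      have : b * c ≤ b * v := by nlinarith
      have : c = a * c + b * c := by rw [← add_mul, hab, one_mul]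
      linarith
  refine ⟨?_, fun j => ?_⟩
  · simpa using hlt _ _ _ hx.1 hy.1
  · simpa using hlt _ _ _ (hx.2 j) (hy.2 j)

theorem isOpen_V (k : ℕ) : IsOpen {p : Fin (k + 1) → ℝ | (k : ℝ) + 1 < p 0 ∧ ∀ j : Fin k, 0 < p j.succ} := by
  have : {p : Fin (k + 1) → ℝ | (k : ℝ) + 1 < p 0 ∧ ∀ j : Fin k, 0 < p j.succ} =
      {p | (k : ℝ) + 1 < p 0} ∩ ⋂ j : Fin k, {p | 0 < p j.succ} := by
    ext p; simp
  rw [this]
  exact (isOpen_lt continuous_const (continuous_apply 0)).inter
    (isOpen_iInter_of_finite fun j => isOpen_lt continuous_const (continuous_apply _))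

/-- The reflected function is tempered. -/
theorem temp_refl (hGAM : S_GAM) {k : ℕ} (j : Fin k) {W : Set (Fin (k + 1) → ℝ)}
    {G : (Fin (k + 1) → ℂ) → ℂ} (hG : Tempered W G) :
    Tempered {q | rf j q ∈ W ∧ 0 < q j.succ ∧ q j.succ < 1} (fun z => gam (z j.succ) * G (rfc j z)) := by
  obtain ⟨hg1, hg2⟩ := hGAM
  constructor
  · apply DifferentiableOn.mul
    · refine hg1.comp (t := {s : ℂ | 0 < s.re ∧ s.re < 1}) (differentiable_apply j.succ).differentiableOn ?_
      intro z hz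
      exact ⟨hz.2.1, hz.2.2⟩
    · refine hG.1.comp (t := tube W) (rfc_diff j).differentiableOn ?_
      intro z hz
      show (fun i => (rfc j z i).re) ∈ W
      rw [rfc_re]
      exact hz.1
  · intro K hK hc
    rcases K.eq_empty_or_nonempty with rfl | hne
    · exact ⟨0, 0, fun z hz => absurd hz (Set.notMem_empty _)⟩
    · have hc1 : IsCompact (rf j '' K) := hc.image (rf_cont j)
      have hs1 : rf j '' K ⊆ W := by
        rintro _ ⟨q, hq, rfl⟩
        exact (hK hq).1
      obtain ⟨C, N, hb⟩ := hG.2 _ hs1 hc1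
      have hcj : Continuous fun q : Fin (k + 1) → ℝ => q j.succ := continuous_apply _
      obtain ⟨q0, hq0, hmin⟩ := hc.exists_isMinOn hne hcj.continuousOn
      obtain ⟨q1, hq1, hmax⟩ := hc.exists_isMaxOn hne hcj.continuousOn
      obtain ⟨C', N', hb'⟩ := hg2 (q0 j.succ) (q1 j.succ) (hK hq0).2.1 (hK hq1).2.2
      refine ⟨|C'| * |C| * 2 ^ N, N' + N, fun z hz => ?_⟩
      have h1 : ‖gam (z j.succ)‖ ≤ |C'| * (1 + ‖fun i => (z i).im‖) ^ N' := by
        have h2 : |(z j.succ).im| ≤ ‖fun i => (z i).im‖ := by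
          have := norm_le_pi_norm (fun i => (z i).im) j.succ
          simpa using this
        have h3 := hb' (z j.succ) (hmin hz) (hmax hz)
        have h4 : C' ≤ |C'| := le_abs_self _
        calc _ ≤ _ := h3
          _ ≤ |C'| * (1 + |(z j.succ).im|) ^ N' := by gcongr
          _ ≤ _ := by gcongr
      have h5 : ‖G (rfc j z)‖ ≤ |C| * (2 * (1 + ‖fun i => (z i).im‖)) ^ N := by
        have h6 : (fun i => (rfc j z i).re) ∈ rf j '' K := by
          rw [rfc_re]
          exact ⟨_, hz, rfl⟩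
        have h7 := rfc_im j z
        have h8 : 1 + ‖fun i => (rfc j z i).im‖ ≤ 2 * (1 + ‖fun i => (z i).im‖) := by linarith
        have h9 : C ≤ |C| := le_abs_self _
        calc _ ≤ _ := hb _ h6
          _ ≤ |C| * (1 + ‖fun i => (rfc j z i).im‖) ^ N := by gcongr
          _ ≤ _ := by gcongr
      rw [norm_mul]
      calc _ ≤ (|C'| * (1 + ‖fun i => (z i).im‖) ^ N') * (|C| * (2 * (1 + ‖fun i => (z i).im‖)) ^ N) :=
            mul_le_mul h1 h5 (norm_nonneg _) (by positivity)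
        _ = _ := by rw [mul_pow, pow_add]; ring

theorem t_REF (hEQ : S_EQ) (hBIG : Pool.Agent.Run7.h473.MD.S_BIG) (hFEQ : S_FEQ) (hGAM : S_GAM) : S_REF := by
  intro k M j p hM hp hp0 hp1
  obtain ⟨Ω, hΩo, hΩc, hsub, hpΩ, G₀, hG₀, hGeq⟩ := hp
  obtain ⟨G₁, hG₁, hGG⟩ := bochner hΩo hΩc hG₀
  set W₁ := convexHull ℝ Ω with hW₁
  have hΩW : Ω ⊆ W₁ := subset_convexHull ℝ Ω
  have ho₁ : IsOpen W₁ := hΩo.convexHull
  have hc₁ : Convex ℝ W₁ := convex_convexHull ℝ Ω
  have hs₁ : orth (k + 1) ⊆ W₁ := hsub.trans hΩW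
  set V := {p : Fin (k + 1) → ℝ | (k : ℝ) + 1 < p 0 ∧ ∀ j : Fin k, 0 < p j.succ} with hV
  have hVo : IsOpen V := isOpen_V k
  have hVc : Convex ℝ V := convex_V k
  have hH : Tempered V (fun z => Hs k M z * PP k z) := temp_mul (hBIG k M) (temp_PP k V)
  -- a common point of the orthant and `V`
  have hcom : (orth (k + 1) ∩ V).Nonempty := by
    refine ⟨fun _ => (k : ℝ) + 2, fun i => ?_, ?_, fun i => ?_⟩
    · have : (0 : ℝ) ≤ k := Nat.cast_nonneg k
      show (1 : ℝ) < (k : ℝ) + 2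
      linarith
    · show (k : ℝ) + 1 < (k : ℝ) + 2
      linarith
    · have : (0 : ℝ) ≤ k := Nat.cast_nonneg k
      show (0 : ℝ) < (k : ℝ) + 2
      linarith
  have he₁ : EqOn G₁ (fun z => Hs k M z * PP k z) (tube (W₁ ∩ V)) := by
    refine eqOn_tube ((isOpen_orth _).inter hVo) hcom (ho₁.inter hVo) (hc₁.inter hVc)
      (inter_subset_inter_left _ hs₁) (hG₁.1.mono fun z hz => hz.1) (hH.1.mono fun z hz => hz.2) (fun z hz => ?_)
    rw [hGG (hsub hz.1), hGeq hz.1]
    exact hEQ k M hM hz.1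
  obtain ⟨G₂, hG₂, hG₂₁, hG₂V⟩ := tempered_glue ho₁ hVo hG₁ hH he₁
  obtain ⟨x₀, hx₀⟩ := hcom
  have hconn : IsConnected (W₁ ∪ V) :=
    ⟨⟨x₀, Or.inr hx₀.2⟩, IsPreconnected.union x₀ (hs₁ hx₀.1) hx₀.2 hc₁.isPreconnected hVc.isPreconnected⟩
  obtain ⟨G, hG, hGG₂⟩ := bochner (ho₁.union hVo) hconn hG₂
  set W := convexHull ℝ (W₁ ∪ V) with hW
  have hUW : W₁ ∪ V ⊆ W := subset_convexHull ℝ _
  have hWo : IsOpen W := (ho₁.union hVo).convexHull
  have hWc : Convex ℝ W := convex_convexHull ℝ _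
  have hWorth : orth (k + 1) ⊆ W := (hs₁.trans subset_union_left).trans hUW
  have hpW : p ∈ W := hUW (Or.inl (hΩW hpΩ))
  have hVW : V ⊆ W := subset_union_right.trans hUW
  have hGF : EqOn G (F k M) (tube (orth (k + 1))) := by
    intro z hz
    rw [hGG₂ (show z ∈ tube (W₁ ∪ V) from Or.inl (hs₁ hz)), hG₂₁ (hs₁ hz), hGG (hsub hz), hGeq hz]
  have hGV : EqOn G (fun z => Hs k M z * PP k z) (tube V) := by
    intro z hz
    rw [hGG₂ (show z ∈ tube (W₁ ∪ V) from Or.inr hz), hG₂V hz]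
  -- the reflected domain
  set Ω' := {q : Fin (k + 1) → ℝ | rf j q ∈ W ∧ 0 < q j.succ ∧ q j.succ < 1} with hΩ'
  have hΩ'o : IsOpen Ω' :=
    (hWo.preimage (rf_cont j)).inter ((isOpen_lt continuous_const (continuous_apply _)).inter
      (isOpen_lt (continuous_apply _) continuous_const))
  have hΩ'c : Convex ℝ Ω' := by
    intro x hx y hy a b ha hb hab
    refine ⟨?_, ?_, ?_⟩
    · rw [rf_comb j x y a b hab]
      exact hWc hx.1 hy.1 ha hb hab
    · have := (convex_Ioo (0 : ℝ) 1) (⟨hx.2.1, hx.2.2⟩ : x j.succ ∈ Ioo (0 : ℝ) 1)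
        (⟨hy.2.1, hy.2.2⟩ : y j.succ ∈ Ioo (0 : ℝ) 1) ha hb hab
      simpa using this.1
    · have := (convex_Ioo (0 : ℝ) 1) (⟨hx.2.1, hx.2.2⟩ : x j.succ ∈ Ioo (0 : ℝ) 1)
        (⟨hy.2.1, hy.2.2⟩ : y j.succ ∈ Ioo (0 : ℝ) 1) ha hb hab
      simpa using this.2
  have hG' : Tempered Ω' (fun z => gam (z j.succ) * G (rfc j z)) := temp_refl hGAM j hG
  set U := {q : Fin (k + 1) → ℝ | (k : ℝ) + 3 < q 0 ∧ (∀ i : Fin k, 0 < q i.succ) ∧ q j.succ < 1} with hU
  have hUo : IsOpen U := by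
    have : U = {p | (k : ℝ) + 3 < p 0} ∩ ((⋂ j : Fin k, {p | 0 < p j.succ}) ∩ {p | p j.succ < 1}) := by
      ext p; simp [hU]
    rw [this]
    exact (isOpen_lt continuous_const (continuous_apply 0)).inter
      ((isOpen_iInter_of_finite fun j => isOpen_lt continuous_const (continuous_apply _)).inter
      (isOpen_lt (continuous_apply _) continuous_const))
  have hUne : U.Nonempty := by
    refine ⟨Fin.cons ((k : ℝ) + 4) fun _ => 1 / 2, ?_, fun i => ?_, ?_⟩
    · simp only [Fin.cons_zero]; linarith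
    · simp only [Fin.cons_succ]; norm_num
    · simp only [Fin.cons_succ]; norm_num
  have hUV : U ⊆ V := fun q hq => ⟨by linarith [hq.1], hq.2.1⟩
  have hUV' : ∀ q ∈ U, rf j q ∈ V := by
    intro q hq
    refine ⟨?_, fun i => ?_⟩
    · rw [rf_zero]
      linarith [hq.1, hq.2.1 j]
    · by_cases h : i = j
      · subst h
        rw [rf_self]
        linarith [hq.2.2]
      · rw [rf_other j i h]
        exact hq.2.1 i
  have hUΩ : U ⊆ Ω' := fun q hq => ⟨hVW (hUV' q hq), hq.2.1 j, hq.2.2⟩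
  have he₂ : EqOn G (fun z => gam (z j.succ) * G (rfc j z)) (tube (W ∩ Ω')) := by
    refine eqOn_tube hUo hUne (hWo.inter hΩ'o) (hWc.inter hΩ'c)
      (fun q hq => ⟨hVW (hUV hq), hUΩ hq⟩) (hG.1.mono fun z hz => hz.1) (hG'.1.mono fun z hz => hz.2)
      (fun z hz => ?_)
    have hzV : z ∈ tube V := hUV (show (fun i => (z i).re) ∈ U from hz)
    have hzV' : rfc j z ∈ tube V := by
      show (fun i => (rfc j z i).re) ∈ V
      rw [rfc_re]
      exact hUV' _ hz
    show G z = gam (z j.succ) * G (rfc j z)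
    rw [hGV hzV, hGV hzV']
    show Hs k M z * PP k z = gam (z j.succ) * (Hs k M (rfc j z) * PP k (rfc j z))
    rw [PP_rfc, ← mul_assoc, Hs_rfc hFEQ M j z (hz.2.1 j) hz.2.2]
  obtain ⟨G₃, hG₃, hG₃W, -⟩ := tempered_glue hWo hΩ'o hG hG' he₂
  obtain ⟨x₁, hx₁⟩ := hUne
  refine ⟨W ∪ Ω', hWo.union hΩ'o, ⟨⟨x₁, Or.inr (hUΩ hx₁)⟩,
    IsPreconnected.union x₁ (hVW (hUV hx₁)) (hUΩ hx₁) hWc.isPreconnected hΩ'c.isPreconnected⟩,
    hWorth.trans subset_union_left, Or.inr ⟨?_, ?_, ?_⟩, G₃, hG₃, fun z hz => ?_⟩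
  · rw [rf_invol]
    exact hpW
  · rw [rf_self]
    linarith
  · rw [rf_self]
    linarith
  · rw [hG₃W (hWorth hz), hGF hz]

end

end Pool.Agent.Run7.h763.MD
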